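import Pool.Agent.H68.MB.Final

/-!
# The biased (2:1) Maker-Breaker game for aligned square lattices

For every `ε > 0` and all large `N`, Maker (who moves first and claims two points per turn against
one point of Breaker) has no winning strategy for the `q x q` aligned square lattices of the board
`[N] x [N]` as soon as `q ≥ (1 + ε) sqrt (log_{3/2} N + 2 log_2 N)`.

The definitions `MakerWins`, `board`, `lat`, `lattices` are in `Pool.Agent.H68.MB.Game`.
-/

namespace Pool.Agent.H68.Old.AsymptoticE39

open Pool.H68.MB

theorem result :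
    ∀ ε : ℝ, 0 < ε → ∃ N0 : ℕ, ∀ N : ℕ, N0 ≤ N → ∀ q : ℕ,
      (1 + ε) * Real.sqrt (Real.logb (3 / 2) N + 2 * Real.logb 2 N) ≤ q →
        ¬ MakerWins (board N) (lattices N q) ∅ ∅ :=
  fun ε hε => main ε hε

end Pool.Agent.H68.Old.AsymptoticE39
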